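import Mathlib
import Pool.Agent.Helper12.LW.Defs

/-! Convexity in the position of the extreme points. -/

namespace Pool.Agent.Helper15.LW2

open Matrix Pool.Agent.Helper12.LW

theorem qf_nonneg {M : Matrix (Fin 3) (Fin 3) ℝ} (hM : M.PosDef) (x : Fin 3 → ℝ) : 0 ≤ qf M x := by
  have := hM.posSemidef.dotProduct_mulVec_nonneg x
  simpa [qf] using this

theorem qf_comb (M : Matrix (Fin 3) (Fin 3) ℝ) (x y : Fin 3 → ℝ) (a b : ℝ) (hab : a + b = 1) :
    qf M (a • x + b • y) = a * qf M x + b * qf M y - a * b * qf M (x - y) := by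
  have hb : b = 1 - a := by linarith
  subst hb
  simp only [qf, mulVec_add, mulVec_smul, mulVec_sub, dotProduct_add, add_dotProduct, smul_dotProduct,
    dotProduct_smul, dotProduct_sub, sub_dotProduct, smul_eq_mul]
  ring

theorem qf_convexOn {M : Matrix (Fin 3) (Fin 3) ℝ} (hM : M.PosDef) :
    ConvexOn ℝ Set.univ (qf M) := by
  refine ⟨convex_univ, ?_⟩
  intro x _ y _ a b ha hb hab
  rw [qf_comb M x y a b hab]
  have := mul_nonneg (mul_nonneg ha hb) (qf_nonneg hM (x - y))
  simp only [smul_eq_mul]
  linarith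

/-- N3 (convexity in the position): one label `j`; `A` is the centred point, `B i` the directions, `s i` the
position (`s j` is not used), `th` the bound of `∑ i ≠ j, s i`. -/
theorem pos_convex (M : Matrix (Fin 3) (Fin 3) ℝ) (hM : M.PosDef) (j : Fin 4) (A : Fin 3 → ℝ)
    (B : Fin 4 → Fin 3 → ℝ) (s : Fin 4 → ℝ) (hs : ∀ i, 0 ≤ s i) (th G ka : ℝ) (hth : 0 < th) (hka : 0 ≤ ka)
    (hG : 0 ≤ G) (hsum : ∑ i, (if i = j then 0 else s i) ≤ th) (h0 : qf M A ≤ G)
    (h1 : ∀ i, i ≠ j → qf M ((1 - th) • A + th • B i) ≤ G * (1 - 2 * ka * th ^ 2)) :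
    qf M ((1 - ∑ i, (if i = j then 0 else s i)) • A + ∑ i, (if i = j then 0 else s i • B i)) ≤
      G * (1 - 2 * ka * (∑ i, (if i = j then 0 else s i)) ^ 2) := by
  classical
  set w : Fin 4 → ℝ := fun i => if i = j then 0 else s i with hw
  have hw0 : ∀ i, 0 ≤ w i := by
    intro i
    simp only [hw]
    split_ifs
    · exact le_rfl
    · exact hs i
  have hB : ∑ i, (if i = j then 0 else s i • B i) = ∑ i, w i • B i := by
    apply Finset.sum_congr rfl
    intro i _
    simp only [hw]
    split_ifs with h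
    · simp
    · rfl
  rw [hB]
  set σ : ℝ := ∑ i, w i with hσ
  have hσ0 : 0 ≤ σ := Finset.sum_nonneg fun i _ => hw0 i
  have hsum' : σ ≤ th := hsum
  have hcv := qf_convexOn hM
  rcases hσ0.eq_or_lt with h | hpos
  · have hz : ∀ i, w i = 0 := by
      intro i
      have := (Finset.sum_eq_zero_iff_of_nonneg (fun i _ => hw0 i)).1 h.symm i (Finset.mem_univ i)
      exact this
    have h2 : ∑ i, w i • B i = 0 := Finset.sum_eq_zero fun i _ => by rw [hz i, zero_smul]
    rw [h2, ← h]
    simpa using h0
  · set t : ℝ := σ / th with ht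
    have ht0 : 0 < t := div_pos hpos hth
    have ht1 : t ≤ 1 := by rw [ht, div_le_one hth]; exact hsum'
    have htth : t * th = σ := by rw [ht]; field_simp
    set E : Fin 3 → ℝ := ∑ i, (w i / σ) • ((1 - th) • A + th • B i) with hE
    have hsum1 : ∑ i, w i / σ = 1 := by rw [← Finset.sum_div, ← hσ, div_self hpos.ne']
    have hy : (1 - σ) • A + ∑ i, w i • B i = (1 - t) • A + t • E := by
      have e1 : E = (1 - th) • A + (th / σ) • ∑ i, w i • B i := by
        rw [hE]
        have : ∀ i, (w i / σ) • ((1 - th) • A + th • B i) =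
            (w i / σ) • ((1 - th) • A) + (th / σ) • (w i • B i) := by
          intro i
          rw [smul_add, smul_smul, smul_smul (w i / σ) th, smul_smul (th / σ) (w i)]
          congr 2
          ring
        simp only [this]
        rw [Finset.sum_add_distrib, ← Finset.sum_smul, hsum1, one_smul, ← Finset.smul_sum]
      rw [e1, smul_add, smul_smul, smul_smul]
      have e2 : t * (th / σ) = 1 := by
        rw [ht]
        field_simp
      rw [e2, one_smul, ← add_assoc, ← add_smul]
      congr 2
      have : t * (1 - th) = t - σ := by rw [← htth]; ring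
      rw [this]
      ring
    rw [hy]
    have hE1 : qf M E ≤ G * (1 - 2 * ka * th ^ 2) := by
      have h3 := hcv.map_sum_le (t := Finset.univ) (w := fun i => w i / σ)
        (p := fun i => (1 - th) • A + th • B i) (fun i _ => div_nonneg (hw0 i) hσ0) hsum1
        (fun i _ => Set.mem_univ _)
      refine h3.trans ?_
      have h4 : ∀ i ∈ (Finset.univ : Finset (Fin 4)),
          (w i / σ) • qf M ((1 - th) • A + th • B i) ≤ (w i / σ) * (G * (1 - 2 * ka * th ^ 2)) := by
        intro i _
        rw [smul_eq_mul]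
        by_cases hij : i = j
        · have : w i = 0 := by simp [hw, hij]
          rw [this]
          simp
        · exact mul_le_mul_of_nonneg_left (h1 i hij) (div_nonneg (hw0 i) hσ0)
      refine (Finset.sum_le_sum h4).trans ?_
      rw [← Finset.sum_mul, hsum1, one_mul]
    have h5 : qf M ((1 - t) • A + t • E) ≤ (1 - t) * qf M A + t * qf M E := by
      have := hcv.2 (Set.mem_univ A) (Set.mem_univ E) (by linarith : 0 ≤ 1 - t) ht0.le (by ring)
      simpa [smul_eq_mul] using this
    have h6 : (1 - t) * qf M A ≤ (1 - t) * G := mul_le_mul_of_nonneg_left h0 (by linarith)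
    have h7 : t * qf M E ≤ t * (G * (1 - 2 * ka * th ^ 2)) := mul_le_mul_of_nonneg_left hE1 ht0.le
    have h8 : (1 - t) * G + t * (G * (1 - 2 * ka * th ^ 2)) = G * (1 - 2 * ka * (σ * th)) := by
      rw [← htth]
      ring
    have h9 : G * (1 - 2 * ka * (σ * th)) ≤ G * (1 - 2 * ka * σ ^ 2) := by
      apply mul_le_mul_of_nonneg_left _ hG
      have : ka * σ ^ 2 ≤ ka * (σ * th) := by
        apply mul_le_mul_of_nonneg_left _ hka
        rw [sq]
        exact mul_le_mul_of_nonneg_left hsum' hσ0
      linarith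
    linarith

end Pool.Agent.Helper15.LW2
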